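import Pool.Agent.N798.T.Stm

set_option autoImplicit false

/-! A slowly varying weight under the sum. -/

namespace Pool.Agent.N901.T

open Finset MeasureTheory Filter Topology
open scoped ENNReal
open Pool.Agent.N798.T

lemma log_tendsto : Tendsto (fun N : ℕ => Real.log N) atTop atTop :=
  Real.tendsto_log_atTop.comp tendsto_natCast_atTop_atTop

/-- the weight is bounded -/
lemma y_bdd {y : ℕ → ℝ} {e : ℕ} {C : ℝ} (hC : 0 < C)
    (hy : Tendsto (fun n : ℕ => y n * (C * Real.log n) ^ e) atTop (𝓝 1)) :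
    ∃ B : ℝ, 0 ≤ B ∧ ∀ n, |y n| ≤ B := by
  have h1 : ∀ᶠ n : ℕ in atTop, |y n * (C * Real.log n) ^ e| < 2 := by
    have := hy.abs
    rw [abs_one] at this
    exact this.eventually_lt_const (by norm_num)
  have h2 : ∀ᶠ n : ℕ in atTop, 1 ≤ C * Real.log n :=
    (log_tendsto.const_mul_atTop hC).eventually_ge_atTop 1
  obtain ⟨n1, hn1⟩ := eventually_atTop.1 (h1.and h2)
  refine ⟨2 + ∑ n ∈ range n1, |y n|, by positivity, fun n => ?_⟩
  by_cases hn : n1 ≤ n
  · obtain ⟨a, b⟩ := hn1 n hn
    have h3 : |y n| ≤ |y n * (C * Real.log n) ^ e| := by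
      rw [abs_mul, abs_of_pos (by positivity : 0 < (C * Real.log n) ^ e)]
      exact le_mul_of_one_le_right (abs_nonneg _) (one_le_pow₀ b)
    have h4 : 0 ≤ ∑ n ∈ range n1, |y n| := by positivity
    linarith
  · have h5 := single_le_sum (f := fun n => |y n|) (s := range n1) (fun i _ => abs_nonneg _)
      (mem_range.2 (not_le.1 hn))
    linarith

/-- `log u / u → 0` along the logarithms -/
lemma ratio_tendsto (k e : ℕ) :
    Tendsto (fun N : ℕ => (Real.log N / (Real.log N - k * Real.log (Real.log N))) ^ e) atTop (𝓝 1) := by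
  have h1 : Tendsto (fun u : ℝ => Real.log u / u) atTop (𝓝 0) := by
    have := Real.isLittleO_log_id_atTop.tendsto_div_nhds_zero
    simpa using this
  have h2 : Tendsto (fun u : ℝ => (1 - k * (Real.log u / u))⁻¹) atTop (𝓝 1) := by
    have h3 := (tendsto_const_nhds (x := (1 : ℝ))).sub (h1.const_mul (k : ℝ))
    have h4 := h3.inv₀ (by norm_num)
    simpa using h4
  have h5 : Tendsto (fun u : ℝ => (u / (u - k * Real.log u)) ^ e) atTop (𝓝 1) := by
    have h6 := h2.pow e
    rw [one_pow] at h6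
    refine h6.congr' ?_
    filter_upwards [eventually_gt_atTop 0] with u hu
    congr 1
    rw [← inv_div]
    field_simp
  exact h5.comp log_tendsto

/-- the weight is almost constant near the end of the interval -/
lemma near {y : ℕ → ℝ} {e : ℕ} {C : ℝ} (k : ℕ)
    (hy : Tendsto (fun n : ℕ => y n * (C * Real.log n) ^ e) atTop (𝓝 1)) {ε : ℝ} (hε : 0 < ε) :
    ∀ᶠ N : ℕ in atTop, ∀ n : ℕ, (N : ℝ) / (Real.log N) ^ k < n → n ≤ N →
      |y n * (C * Real.log N) ^ e - 1| ≤ ε := by
  have h1 : ∀ᶠ n : ℕ in atTop, |y n * (C * Real.log n) ^ e - 1| < min (ε / 4) 1 := by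
    have h2 : Tendsto (fun n : ℕ => |y n * (C * Real.log n) ^ e - 1|) atTop (𝓝 0) := by
      have := (hy.sub_const 1).abs
      simpa using this
    exact h2.eventually_lt_const (by positivity)
  obtain ⟨n1, hn1⟩ := eventually_atTop.1 h1
  have h3 : ∀ᶠ N : ℕ in atTop, (Real.log N / (Real.log N - k * Real.log (Real.log N))) ^ e <
      1 + min (ε / 4) 1 :=
    (ratio_tendsto k e).eventually_lt_const (by linarith [lt_min (by positivity : 0 < ε / 4) one_pos])
  have h4 : ∀ᶠ N : ℕ in atTop, 0 < Real.log N - k * Real.log (Real.log N) := by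
    have h5 : ∀ᶠ u : ℝ in atTop, 0 < u - k * Real.log u := by
      have h6 := Real.isLittleO_log_id_atTop.def (c := 1 / ((k : ℝ) + 1)) (by positivity)
      filter_upwards [h6, eventually_gt_atTop 1] with u hu hu1
      have hl : 0 < Real.log u := Real.log_pos hu1
      rw [Real.norm_eq_abs, abs_of_pos hl, id, Real.norm_eq_abs, abs_of_pos (by linarith),
        one_div, inv_mul_eq_div, le_div_iff₀ (by positivity)] at hu
      nlinarith
    exact log_tendsto.eventually h5
  have h7 : ∀ᶠ N : ℕ in atTop, (n1 : ℝ) ≤ (N : ℝ) / (Real.log N) ^ k := by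
    have h8 : Tendsto (fun t : ℝ => t / (Real.log t) ^ k) atTop atTop := by
      have h9 : Tendsto (fun t : ℝ => (Real.log t) ^ k / t) atTop (𝓝 0) := by
        have := (Real.isLittleO_pow_log_id_atTop (n := k)).tendsto_div_nhds_zero
        simpa using this
      have h10 : Tendsto (fun t : ℝ => ((Real.log t) ^ k / t)⁻¹) atTop atTop := by
        apply Tendsto.inv_tendsto_nhdsGT_zero
        rw [tendsto_nhdsWithin_iff]
        refine ⟨h9, ?_⟩
        filter_upwards [eventually_gt_atTop 1] with t ht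
        have := Real.log_pos ht
        exact Set.mem_Ioi.2 (by positivity)
      refine h10.congr fun t => ?_
      rw [inv_div]
    exact (h8.comp tendsto_natCast_atTop_atTop).eventually_ge_atTop _
  filter_upwards [h3, h4, h7, log_tendsto.eventually_gt_atTop 1] with N a3 a4 a7 a8 n hn hnN
  set u := Real.log N with hu
  have hu0 : 0 < u := by linarith
  have hnn1 : n1 ≤ n := by
    have : (n1 : ℝ) < n := lt_of_le_of_lt a7 hn
    exact (Nat.cast_lt.1 this).le
  have b1 := hn1 n hnn1
  have hN0 : 0 < (N : ℝ) := by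
    rcases Nat.eq_zero_or_pos N with h | h
    · rw [hu, h] at a8
      simp at a8
      linarith
    · exact_mod_cast h
  have hn0 : 0 < (n : ℝ) := lt_of_le_of_lt (by positivity) hn
  have c1 : u - k * Real.log u ≤ Real.log n := by
    have h := Real.log_le_log (by positivity) hn.le
    rwa [Real.log_div hN0.ne' (by positivity), Real.log_pow] at h
  have c2 : Real.log n ≤ u := Real.log_le_log hn0 (by exact_mod_cast hnN)
  have c3 : 0 < Real.log n := by linarith
  set r := u / Real.log n with hr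
  have hr1 : 1 ≤ r := by rw [hr, one_le_div c3]; exact c2
  have hrR : r ^ e ≤ (u / (u - k * Real.log u)) ^ e := by
    apply pow_le_pow_left₀ (by positivity)
    exact div_le_div_of_nonneg_left hu0.le a4 c1
  have hr1e : 1 ≤ r ^ e := one_le_pow₀ hr1
  set w := y n * (C * Real.log n) ^ e with hw
  have e1 : y n * (C * u) ^ e = w * r ^ e := by
    have hu2 : u = Real.log n * r := by rw [hr]; field_simp
    conv_lhs => rw [hu2]
    rw [hw, ← mul_assoc C, mul_pow (C * Real.log n), mul_assoc]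
  rw [e1]
  have hm1 : min (ε / 4) 1 ≤ ε / 4 := min_le_left _ _
  have hm2 : min (ε / 4) 1 ≤ 1 := min_le_right _ _
  have e2 : w * r ^ e - 1 = (w - 1) * r ^ e + (r ^ e - 1) := by ring
  rw [e2]
  have hr2 : r ^ e ≤ 2 := by linarith
  calc |(w - 1) * r ^ e + (r ^ e - 1)| ≤ |(w - 1) * r ^ e| + |r ^ e - 1| := abs_add_le _ _
    _ = |w - 1| * r ^ e + (r ^ e - 1) := by
        rw [abs_mul, abs_of_nonneg (by linarith : 0 ≤ r ^ e), abs_of_nonneg (by linarith : 0 ≤ r ^ e - 1)]
    _ ≤ ε / 4 * 2 + ε / 4 := by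
        refine add_le_add (mul_le_mul (by linarith) hr2 (by linarith) (by positivity)) (by linarith)
    _ ≤ ε := by linarith

lemma count (N : ℕ) (t c : ℝ) (ht : 0 ≤ t) (hc : 0 ≤ c) :
    ∑ n ∈ Icc 1 N, (if (n : ℝ) ≤ t then c else 0) ≤ t * c := by
  rw [← sum_filter, sum_const, nsmul_eq_mul]
  refine mul_le_mul_of_nonneg_right ?_ hc
  have h1 : (Icc 1 N).filter (fun n : ℕ => (n : ℝ) ≤ t) ⊆ Icc 1 ⌊t⌋₊ := by
    intro n hn
    rw [mem_filter, mem_Icc] at hn
    rw [mem_Icc]
    exact ⟨hn.1.1, Nat.le_floor hn.2⟩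
  have h2 := card_le_card h1
  rw [Nat.card_Icc, Nat.add_sub_cancel] at h2
  exact (Nat.cast_le.2 h2).trans (Nat.floor_le ht)

theorem su : S_SU := by
  intro x y E e C Q hx0 hx1 hC hQ hP hy
  obtain ⟨B, hB0, hB⟩ := y_bdd hC hy
  set A : ℕ → ℝ := fun N => (∑ n ∈ Icc 1 N, x n) * (Real.log N) ^ E / N with hA
  set R : ℕ → ℝ := fun N => (∑ n ∈ Icc 1 N, x n * (y n * (C * Real.log N) ^ e - 1)) *
    (Real.log N) ^ E / N with hR
  have hR0 : Tendsto R atTop (𝓝 0) := by
    rw [Metric.tendsto_atTop']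
    intro ε hε
    set δ : ℝ := ε / (2 * (Q + 1)) with hδ
    have hδ0 : 0 < δ := by positivity
    have e1 := near (E + e + 1) hy hδ0
    have e2 : ∀ᶠ N : ℕ in atTop, A N < Q + 1 := hP.eventually_lt_const (by linarith)
    have e3 : ∀ᶠ N : ℕ in atTop, (B * C ^ e + 1) / Real.log N < ε / 2 :=
      (log_tendsto.const_div_atTop _).eventually_lt_const (by positivity)
    have e4 : ∀ᶠ N : ℕ in atTop, ∀ M > N, True := by simp
    obtain ⟨n0, hn0⟩ := eventually_atTop.1 ((e1.and e2).and (e3.and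
      ((log_tendsto.eventually_ge_atTop 1).and (eventually_ge_atTop 1))))
    refine ⟨n0, fun N hN => ?_⟩
    obtain ⟨⟨a1, a2⟩, a3, a4, a5⟩ := hn0 N hN.le
    rw [Real.dist_eq, sub_zero]
    set u := Real.log N with hu
    have hu0 : 0 < u := by linarith
    have hN0 : 0 < (N : ℝ) := by exact_mod_cast a5
    have hpt : ∀ n ∈ Icc 1 N, |x n * (y n * (C * u) ^ e - 1)| ≤ δ * x n +
        (if (n : ℝ) ≤ N / u ^ (E + e + 1) then B * (C * u) ^ e + 1 else 0) := by
      intro n hn
      rw [mem_Icc] at hn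
      rw [abs_mul, abs_of_nonneg (hx0 n)]
      split_ifs with h
      · have h1 : |y n * (C * u) ^ e - 1| ≤ B * (C * u) ^ e + 1 := by
          refine (abs_sub _ _).trans ?_
          rw [abs_one, abs_mul, abs_of_pos (by positivity : 0 < (C * u) ^ e)]
          have := mul_le_mul_of_nonneg_right (hB n) (by positivity : 0 ≤ (C * u) ^ e)
          linarith
        have h2 : x n * |y n * (C * u) ^ e - 1| ≤ 1 * (B * (C * u) ^ e + 1) :=
          mul_le_mul (hx1 n) h1 (abs_nonneg _) zero_le_one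
        have h3 : 0 ≤ δ * x n := mul_nonneg hδ0.le (hx0 n)
        linarith
      · have h1 := a1 n (not_le.1 h) hn.2
        have h2 := mul_le_mul_of_nonneg_left h1 (hx0 n)
        linarith
    have hs : |∑ n ∈ Icc 1 N, x n * (y n * (C * u) ^ e - 1)| ≤
        δ * ∑ n ∈ Icc 1 N, x n + N / u ^ (E + e + 1) * (B * (C * u) ^ e + 1) := by
      refine (abs_sum_le_sum_abs _ _).trans ((sum_le_sum hpt).trans ?_)
      rw [sum_add_distrib, ← mul_sum]
      exact add_le_add le_rfl (count N _ _ (by positivity) (by positivity))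
    have hR1 : |R N| = |∑ n ∈ Icc 1 N, x n * (y n * (C * u) ^ e - 1)| * u ^ E / N := by
      rw [hR]
      simp only
      rw [← hu, abs_div, abs_mul, abs_of_pos (by positivity : 0 < u ^ E), abs_of_pos hN0]
    rw [hR1]
    have hA1 : (∑ n ∈ Icc 1 N, x n) * u ^ E / N < Q + 1 := a2
    have h5 : (N : ℝ) / u ^ (E + e + 1) * (B * (C * u) ^ e + 1) * u ^ E / N ≤ (B * C ^ e + 1) / u := by
      have h6 : (N : ℝ) / u ^ (E + e + 1) * (B * (C * u) ^ e + 1) * u ^ E / N =
          (B * C ^ e + 1 / u ^ e) / u := by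
        rw [mul_pow]
        field_simp
        ring
      rw [h6]
      have h7 : 1 / u ^ e ≤ 1 := by
        rw [div_le_one (by positivity)]
        exact one_le_pow₀ a4
      gcongr
    calc |∑ n ∈ Icc 1 N, x n * (y n * (C * u) ^ e - 1)| * u ^ E / N ≤
          (δ * ∑ n ∈ Icc 1 N, x n + N / u ^ (E + e + 1) * (B * (C * u) ^ e + 1)) * u ^ E / N := by
          gcongr
      _ = δ * ((∑ n ∈ Icc 1 N, x n) * u ^ E / N) +
          (N : ℝ) / u ^ (E + e + 1) * (B * (C * u) ^ e + 1) * u ^ E / N := by ring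
      _ ≤ δ * (Q + 1) + (B * C ^ e + 1) / u := by
          refine add_le_add (mul_le_mul_of_nonneg_left hA1.le hδ0.le) h5
      _ < ε := by
          have h8 : δ * (Q + 1) = ε / 2 := by
            rw [hδ]
            field_simp
          rw [h8]
          linarith
  have hsum : Tendsto (fun N : ℕ => (A N + R N) / C ^ e) atTop (𝓝 ((Q + 0) / C ^ e)) :=
    (hP.add hR0).div_const _
  rw [add_zero] at hsum
  refine hsum.congr fun N => ?_
  rw [hA, hR]
  simp only
  have h1 : ∑ n ∈ Icc 1 N, x n * (y n * (C * Real.log N) ^ e - 1) =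
      (∑ n ∈ Icc 1 N, x n * y n) * (C * Real.log N) ^ e - ∑ n ∈ Icc 1 N, x n := by
    rw [sum_mul, ← sum_sub_distrib]
    exact sum_congr rfl fun n _ => by ring
  rw [h1, mul_pow, pow_add]
  field_simp
  ring

end Pool.Agent.N901.T
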